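import Pool.Agent.H95.ESP.Stmts

/-!
# Board esp, row PTY: the parity of the number of points
-/

set_option autoImplicit false

namespace ESP.PTYaux
open Finset

theorem even_of_invol {α : Type*} [DecidableEq α] (S : Finset α) (g : α → α)
    (h1 : ∀ x ∈ S, g x ∈ S) (h2 : ∀ x ∈ S, g x ≠ x) (h3 : ∀ x ∈ S, g (g x) = x) : Even S.card := by
  have h : ∑ _x ∈ S, (1 : ZMod 2) = 0 := by
    apply Finset.sum_involution (fun x _ => g x)
    · intro x _
      exact CharTwo.add_self_eq_zero 1
    · intro x hx _
      exact h2 x hx
    · intro x hx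
      exact h1 x hx
    · intro x hx
      exact h3 x hx
  rw [Finset.sum_const, nsmul_eq_mul, mul_one] at h
  exact (ZMod.natCast_eq_zero_iff_even).1 h

variable {F : Type*} [Field F] [Fintype F] [DecidableEq F]

theorem odd_roots (a b : F) (hD : 4 * a ^ 3 + 27 * b ^ 2 ≠ 0) (r : F)
    (hr : r ^ 3 + a * r + b = 0) : Odd (univ.filter (fun x : F => x ^ 3 + a * x + b = 0)).card := by
  have hb : b = -r ^ 3 - a * r := by linear_combination hr
  have hmem : r ∈ univ.filter (fun x : F => x ^ 3 + a * x + b = 0) := by
    rw [mem_filter]
    exact ⟨mem_univ _, hr⟩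
  have hcard := Finset.card_erase_add_one hmem
  have hev : Even ((univ.filter (fun x : F => x ^ 3 + a * x + b = 0)).erase r).card := by
    have key : ∀ x ∈ (univ.filter (fun x : F => x ^ 3 + a * x + b = 0)).erase r,
        x ≠ r ∧ x ^ 2 + r * x + r ^ 2 + a = 0 := by
      intro x hx
      rw [mem_erase, mem_filter] at hx
      refine ⟨hx.1, ?_⟩
      have h1 : (x - r) * (x ^ 2 + r * x + r ^ 2 + a) = 0 := by
        have := hx.2.2
        linear_combination this - hr
      rcases mul_eq_zero.1 h1 with h | h
      · exact absurd (sub_eq_zero.1 h) hx.1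
      · exact h
    apply even_of_invol _ (fun x => -r - x)
    · intro x hx
      obtain ⟨h1, h3⟩ := key x hx
      rw [mem_erase, mem_filter]
      refine ⟨?_, mem_univ _, ?_⟩
      · intro h
        apply hD
        have hx' : x = -2 * r := by linear_combination -h
        have ha : a = -3 * r ^ 2 := by
          rw [hx'] at h3
          linear_combination h3
        rw [hb, ha]
        ring
      · rw [hb]
        linear_combination (-r - x - r) * h3
    · intro x hx h
      obtain ⟨h1, h3⟩ := key x hx
      apply hD
      have hrx : r = -2 * x := by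
        have : -r - x = x := h
        linear_combination -this
      have ha : a = -3 * x ^ 2 := by
        rw [hrx] at h3
        linear_combination h3
      rw [hb, ha, hrx]
      ring
    · intro x _
      ring
  rw [← hcard]
  exact hev.add_one

end ESP.PTYaux

namespace ESP
open Finset

/-- row PTY -/
theorem pty_thm : S_PTY := by
  intro p _ hp a b hD
  have h2 : (2 : ZMod p) ≠ 0 := by
    intro h
    have h' : ((2 : ℕ) : ZMod p) = 0 := by exact_mod_cast h
    rw [ZMod.natCast_eq_zero_iff] at h'
    have := Nat.le_of_dvd (by norm_num) h'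
    omega
  classical
  have hN : Nat.card {v : ZMod p × ZMod p // v.2 ^ 2 = v.1 ^ 3 + a * v.1 + b} =
      (univ.filter (fun v : ZMod p × ZMod p => v.2 ^ 2 = v.1 ^ 3 + a * v.1 + b)).card := by
    rw [Nat.card_eq_fintype_card, Fintype.card_subtype]
  rw [hN]
  set S := univ.filter (fun v : ZMod p × ZMod p => v.2 ^ 2 = v.1 ^ 3 + a * v.1 + b) with hS
  have hsplit := Finset.card_filter_add_card_filter_not (s := S) (fun v : ZMod p × ZMod p => v.2 = 0)
  have hev : Even (S.filter (fun v : ZMod p × ZMod p => ¬ v.2 = 0)).card := by
    apply PTYaux.even_of_invol _ (fun v => (v.1, -v.2))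
    · intro v hv
      rw [mem_filter, hS, mem_filter] at hv ⊢
      refine ⟨⟨mem_univ _, ?_⟩, ?_⟩
      · simpa using hv.1.2
      · simpa using hv.2
    · intro v hv h
      rw [mem_filter] at hv
      have h3 : -v.2 = v.2 := congrArg Prod.snd h
      apply hv.2
      have h4 : (2 : ZMod p) * v.2 = 0 := by linear_combination -h3
      rcases mul_eq_zero.1 h4 with h5 | h5
      · exact absurd h5 h2
      · exact h5
    · intro v _
      simp
  have hroot : (S.filter (fun v : ZMod p × ZMod p => v.2 = 0)).card =
      (univ.filter (fun x : ZMod p => x ^ 3 + a * x + b = 0)).card := by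
    apply Finset.card_bij (fun v _ => v.1)
    · intro v hv
      rw [mem_filter, hS, mem_filter] at hv
      rw [mem_filter]
      refine ⟨mem_univ _, ?_⟩
      have := hv.1.2
      rw [hv.2] at this
      linear_combination -this
    · intro v hv w hw h
      rw [mem_filter] at hv hw
      exact Prod.ext h (hv.2.trans hw.2.symm)
    · intro x hx
      rw [mem_filter] at hx
      refine ⟨(x, 0), ?_, rfl⟩
      rw [mem_filter, hS, mem_filter]
      refine ⟨⟨mem_univ _, ?_⟩, rfl⟩
      simp only
      rw [hx.2]
      ring
  rw [← hsplit, hroot]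
  constructor
  · intro h
    by_contra hno
    push Not at hno
    have h0 : (univ.filter (fun x : ZMod p => x ^ 3 + a * x + b = 0)).card = 0 := by
      rw [Finset.card_eq_zero, Finset.filter_eq_empty_iff]
      intro x _
      exact hno x
    rw [h0, zero_add] at h
    exact (Nat.not_even_iff_odd.2 hev.add_one) h
  · rintro ⟨r, hr⟩
    have hodd := PTYaux.odd_roots a b hD r hr
    have := (hodd.add_even hev).add_one
    exact this

end ESP
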