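import Mathlib

/-!
# MP_3ddf05_nt: definitions

Every elliptic curve over `ℚ` is isomorphic to `y² = x³ + a x + b` for exactly one pair `(a, b)` with `IsModel a b`.
-/

set_option autoImplicit false

namespace ESP
open Finset

/-- `4a³ + 27b²`; the discriminant of `y² = x³ + a x + b` is `-16` times this number -/
def D (a b : ℤ) : ℤ := 4 * a ^ 3 + 27 * b ^ 2

/-- the elliptic curve `y² = x³ + a x + b`, with no prime `p` such that `p⁴ ∣ a` and `p⁶ ∣ b` -/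
def IsModel (a b : ℤ) : Prop :=
  D a b ≠ 0 ∧ ∀ p : ℕ, p.Prime → ¬ ((p : ℤ) ^ 4 ∣ a ∧ (p : ℤ) ^ 6 ∣ b)

/-- the number of points of `y² = x³ + a x + b` over `ZMod p`, with the point at infinity -/
noncomputable def pts (a b : ℤ) (p : ℕ) : ℕ :=
  Nat.card {v : ZMod p × ZMod p // v.2 ^ 2 = v.1 ^ 3 + (a : ZMod p) * v.1 + (b : ZMod p)} + 1

/-- the product of the primes `p ≥ 5` dividing `4a³ + 27b²`; for `IsModel a b` these are the primes
`p ≥ 5` of bad reduction, so this number divides the conductor -/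
def R (a b : ℤ) : ℕ := ∏ p ∈ (D a b).natAbs.primeFactors.filter (fun p => 5 ≤ p), p

/-- the curves of height `max (4|a|³, 27b²) ≤ X` -/
def Fam (X : ℝ) : Set (ℤ × ℤ) :=
  {q | IsModel q.1 q.2 ∧ 4 * |(q.1 : ℝ)| ^ 3 ≤ X ∧ 27 * (q.2 : ℝ) ^ 2 ≤ X}

/-- a prime `p ≤ C (log R(a,b)R(a',b'))^α` of good reduction for both separates the two curves -/
def Sep (C α : ℝ) (a b a' b' : ℤ) : Prop :=
  ∃ p : ℕ, p.Prime ∧ 5 ≤ p ∧ (p : ℝ) ≤ C * (Real.log ((R a b : ℝ) * R a' b')) ^ α ∧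
    ¬ (p : ℤ) ∣ D a b ∧ ¬ (p : ℤ) ∣ D a' b' ∧ pts a b p ≠ pts a' b' p

end ESP
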