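import Pool.Agent.H95.ESP.Stmts
import Pool.Agent.H65.MTA.LSG
import Pool.Agent.H70.MTA.LSA
import Pool.Agent.H95.ESP.PTY
import Pool.Agent.H62.ESP.QCN
import Pool.Agent.H45.ESP.CNT
import Pool.Agent.H3.ESP.OMG
import Pool.Agent.H71.ESP.SVE
import Pool.Agent.H54.ESP.FIX
import Pool.Agent.H23.ESP.PCD
import Pool.Agent.H81.ESP.PGR
import Pool.Agent.H50.ESP.BIN
import Pool.Agent.H89.ESP.PRM
import Pool.Agent.H95.ESP.RAD
import Pool.Agent.H34.ESP.SMR
import Pool.Agent.H53.ESP.FML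
import Pool.Agent.H48.ESP.EXA
import Pool.Agent.H34.ESP.FIN

/-!
# Board esp: assembly
-/

set_option autoImplicit false

namespace ESP

theorem final : S_FIN := by
  have hALS : TIE.S_ALS := TIE.ALS (MTA.LSA MTA.LSG)
  have hSVE : S_SVE := sve_thm hALS
  have hCNT : S_CNT := CNT_thm qcn_thm
  have hOMG : S_OMG := omg_thm pty_thm hCNT
  have hFIX : S_FIX := fix_thm hOMG hSVE
  have hPRM : S_PRM := prm_thm pgr_thm bin_thm
  have hEXA : S_EXA := EXA_thm hFIX pcd_thm hPRM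
  have hSMR : S_SMR := SMR_thm rad_thm
  exact FIN_thm fml_thm hEXA hSMR

end ESP
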