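import Pool.Agent.H95.ESP.Defs
import Pool.Agent.H17.TIEP.ALS

/-!
# Board esp (MP_3ddf05_nt): the statements of the rows

Theorem (row FIN): for every `α > 1`, `C > 0`, `ε > 0` all but `X^(5/6 - (1 - 1/α)/4 + ε)` of the curves of
height `≤ X` are separated from a given curve by a prime `p ≤ C (log N N')^α`.
-/

set_option autoImplicit false

namespace ESP
open Finset

/-- PTY. The number of points is even exactly when the cubic has a root. Proof: `(x,y) ↦ (x,-y)` is an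
involution of the affine solutions whose fixed points are the `(x,0)` with `x` a root (`p` odd), so the number
of points is `1 +` number of roots modulo 2. A cubic `x³+ax+b` with nonzero discriminant has 0, 1 or 3 roots:
if `x₁ ≠ x₂` are roots, so is `x₃ = -x₁-x₂`, and `x₃ = x₁` forces `a = -3x₁²`, `b = 2x₁³`, so `4a³+27b² = 0`. -/
def S_PTY : Prop := ∀ (p : ℕ) [Fact p.Prime], 5 ≤ p → ∀ a b : ZMod p, 4 * a ^ 3 + 27 * b ^ 2 ≠ 0 →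
  (Even (Nat.card {v : ZMod p × ZMod p // v.2 ^ 2 = v.1 ^ 3 + a * v.1 + b} + 1) ↔
    ∃ x : ZMod p, x ^ 3 + a * x + b = 0)

/-- QCN. Proof: there is one solution `(u₀,v₀)` (`4(x²+xy+y²) = (2x+y)²+3y²` and
`FiniteField.exists_root_sum_quadratic` or `ZMod`-pigeonhole). For `t` with `q(1,t) = 1+t+t² ≠ 0` (all but at
most 2 values) the line through it with direction `(1,t)` meets the curve also in the point with parameter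
`s = -(2u₀+v₀+t(u₀+2v₀))/q(1,t)`; `s = 0` for at most one `t` (not both `2u₀+v₀`, `u₀+2v₀` vanish as `3u₀ = 0`
would give `c = 0`), and different `t` with `s ≠ 0` give different points, all different from `(u₀,v₀)`. -/
def S_QCN : Prop := ∀ (p : ℕ) [Fact p.Prime], 5 ≤ p → ∀ c : ZMod p, c ≠ 0 →
  p ≤ (univ.filter (fun v : ZMod p × ZMod p => v.1 ^ 2 + v.1 * v.2 + v.2 ^ 2 = c)).card + 2

/-- CNT. Let `r(b)` be the number of roots of `x³+ax+b`, so `0 ≤ r(b) ≤ 3`, `∑ r(b) = p`, and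
`∑ (r(b)² - r(b))` is the number `T` of pairs `x ≠ y` with `x³+ax = y³+ay`, i.e. `x²+xy+y² = -a`; by QCN
`T ≥ p - 2 - 2` (at most 2 solutions have `x = y`: `3x² = -a`). As `1_{r=0} ≥ 1 - r + (r²-r)/3` for
`r = 0,1,2,3`: `#{r = 0} ≥ T/3 ≥ (p-4)/3 ≥ p/6`. Second part: `#{b : r(b) ≥ 1} ≥ p/3` and at most two `b`
have `4a³+27b² = 0`; `p/3 - 2 ≥ p/6` for `p ≥ 12`. -/
def S_CNT : Prop := ∀ (p : ℕ) [Fact p.Prime], 13 ≤ p → ∀ a : ZMod p, a ≠ 0 →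
  p ≤ 6 * (univ.filter (fun b : ZMod p => ∀ x : ZMod p, x ^ 3 + a * x + b ≠ 0)).card ∧
  p ≤ 6 * (univ.filter (fun b : ZMod p => 4 * a ^ 3 + 27 * b ^ 2 ≠ 0 ∧
    ∃ x : ZMod p, x ^ 3 + a * x + b = 0)).card

/-- OMG. From PTY and CNT: if `x³+ax+b` has a root mod `p` take the classes without root (they have
`D a' n ≢ 0`: if `4a'³+27n² = 0` in `ZMod p` and `a' ≠ 0` then `-3n/(2a')` is a root), otherwise the classes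
with a root and `D a' n ≢ 0`; the parities of `pts` differ. -/
def S_OMG : Prop := ∀ p : ℕ, p.Prime → 13 ≤ p → ∀ a b a' : ℤ, ¬ (p : ℤ) ∣ D a b → ¬ (p : ℤ) ∣ a' →
  ∃ Ω : Finset ℕ, Ω ⊆ range p ∧ p ≤ 6 * Ω.card ∧ ∀ n ∈ Ω, ∀ b' : ℤ, b' ≡ (n : ℤ) [ZMOD p] →
    ¬ (p : ℤ) ∣ D a' b' ∧ pts a b p ≠ pts a' b' p

/-- SVE. From the arithmetic large sieve `TIE.S_ALS` with `w p = (p+5)/6` for `p ∈ P` and `p ≤ Q`, `0`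
otherwise: `w/(p-w) ≥ 1/5`, and the sum over squarefree `r ≤ Q` is at least the sum over the products of the
`k`-subsets of `P` (such a product is `≤ z^k ≤ Q`), each giving `≥ 5^(-k)`. (`k = 0`: the term `r = 1`.) -/
def S_SVE : Prop := ∃ C₀ : ℝ, 0 < C₀ ∧ ∀ N Q k z : ℕ, 1 ≤ N → 1 ≤ Q → z ^ k ≤ Q →
  ∀ P : Finset ℕ, (∀ p ∈ P, p.Prime ∧ p ≤ z) → ∀ S : Finset ℕ, S ⊆ Icc 1 N →
  (∀ p ∈ P, ∃ Ω : Finset ℕ, Ω ⊆ range p ∧ p ≤ 6 * Ω.card ∧ ∀ n ∈ S, n % p ∉ Ω) →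
  (S.card : ℝ) * ((P.card.choose k : ℝ) / 5 ^ k) ≤ C₀ * (N + (Q : ℝ) ^ 2)

/-- FIX. From OMG and SVE, shifting `b' ↦ b' + B + 1 ∈ Icc 1 (2B+1)` (and shifting `Ω` modulo `p`). -/
def S_FIX : Prop := ∃ C₀ : ℝ, 0 < C₀ ∧ ∀ (a b a' : ℤ) (B Q k z : ℕ), 1 ≤ Q → z ^ k ≤ Q →
  ∀ P : Finset ℕ, (∀ p ∈ P, p.Prime ∧ 13 ≤ p ∧ p ≤ z ∧ ¬ (p : ℤ) ∣ D a b ∧ ¬ (p : ℤ) ∣ a') →
  ∀ S : Finset ℤ, (∀ b' ∈ S, |b'| ≤ (B : ℤ) ∧ ∀ p ∈ P, ¬ (p : ℤ) ∣ D a' b' → pts a b p = pts a' b' p) →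
  (S.card : ℝ) * ((P.card.choose k : ℝ) / 5 ^ k) ≤ C₀ * (2 * B + 1 + (Q : ℝ) ^ 2)

/-- PCD. The primes `≤ z` outside the filter are `< 13` (five of them), or divide `D a b` (they are `≥ 13`, so
`log p ≥ 1`, and they are factors of `R a b`), or divide `a'` (`log p ≥ 1`, their product divides `a'`). -/
def S_PCD : Prop := ∀ (a b a' : ℤ) (z : ℕ), D a b ≠ 0 → a' ≠ 0 →
  (Nat.primeCounting z : ℝ) ≤ (((range (z + 1)).filter (fun p : ℕ => p.Prime ∧ 13 ≤ p ∧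
    ¬ (p : ℤ) ∣ D a b ∧ ¬ (p : ℤ) ∣ a')).card : ℝ) + 6 + Real.log (R a b) + Real.log |(a' : ℝ)|

/-- PGR. For `y` large, `n ≥ π(⌊y⌋) - 6 - 5 (y/C)^(1/α)` implies `y^(1-η) ≤ n`. Mathlib:
`Chebyshev.psi_ge'`, `Chebyshev.psi_le_primeCounting_mul_log'`. -/
def S_PGR : Prop := ∀ α C η : ℝ, 1 < α → 0 < C → 0 < η → ∃ y₀ : ℝ, ∀ y : ℝ, y₀ ≤ y → ∀ n : ℕ,
  (Nat.primeCounting ⌊y⌋₊ : ℝ) ≤ n + 6 + 5 * (y / C) ^ (1 / α) → y ^ (1 - η) ≤ (n : ℝ)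

/-- BIN. `C(n,k)/5^k ≥ (n/(10k))^k` if `2k ≤ n` (`Nat.pow_le_choose`, `k! ≤ k^k`; `k = 0` is trivial). -/
def S_BIN : Prop := ∀ n k : ℕ, 2 * k ≤ n → 1 ≤ k →
  ((n : ℝ) / (10 * k)) ^ k ≤ (n.choose k : ℝ) / 5 ^ k

/-- PRM. Put `η = min(ε, (1-1/α)/4)`, `δ = min(ε/(4α), 1/2)`, `y = C (L + log X/4)^α`; for `X` large
(uniformly in `L ≥ 0`) `y` is large, and `y ≤ C (2X^δ)^α ≤ X^(2αδ) ≤ X^(ε/2)`. Take `Q = ⌊X^(1/4)⌋₊`,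
`k = ⌊log X/(4 log y)⌋₊`, so `y^k ≤ X^(1/4)`, hence `⌊y⌋₊^k ≤ Q`. `L + log X ≤ 4 (L + log X/4) = 4 (y/C)^(1/α)`,
so `|P| ≥ y^(1-η)` by PGR; `k ≤ log X/4 ≤ (y/C)^(1/α)`, so `|P|/(10k) ≥ y^(1-1/α-2η)` for `y` large, and by BIN
`C(|P|,k)/5^k ≥ y^((1-1/α-2η)k) ≥ y^((1-1/α-2η)(log X/(4 log y) - 1)) ≥ X^((1-1/α-2η)/4) X^(-ε/2)`
`≥ X^((1-1/α)/4-ε)` (as `η/2 ≤ ε/2` and the exponent `1-1/α-2η` is in `[0,1]`). `k = 0` cannot happen for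
`X` large (`y ≤ X^(ε/2)`; if `ε` is large then the claim for `min ε 1/8` is stronger: `X^(...-ε)` decreases
in `ε`; so assume `ε ≤ 1/8`, then `y ≤ X^(1/16)`). -/
def S_PRM : Prop := ∀ α C ε : ℝ, 1 < α → 0 < C → 0 < ε → ∃ δ X₀ : ℝ, 0 < δ ∧ 4 ≤ X₀ ∧ ∀ X : ℝ, X₀ ≤ X →
  ∀ L : ℝ, 0 ≤ L → L ≤ X ^ δ → ∀ n : ℕ,
  (Nat.primeCounting ⌊C * (L + Real.log X / 4) ^ α⌋₊ : ℝ) ≤ n + 6 + L + Real.log X →
  ∃ k Q : ℕ, 1 ≤ Q ∧ ⌊C * (L + Real.log X / 4) ^ α⌋₊ ^ k ≤ Q ∧ (Q : ℝ) ^ 2 ≤ X ^ (1 / 2 : ℝ) ∧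
    X ^ ((1 - 1 / α) / 4 - ε) ≤ (n.choose k : ℝ) / 5 ^ k

/-- RAD. Few integers have a small radical. Copy `euler_bound`, `count_fixed`, `count_rad` from
`Pool/Agent/H45/Old/SparseExceptions.lean` (it is `count_rad` with `rad` unfolded). -/
def S_RAD : Prop := ∀ η : ℝ, 0 < η → ∃ K : ℝ, 0 < K ∧ ∀ Z Y : ℝ, 1 ≤ Z → 1 ≤ Y → ∀ T : Finset ℕ,
  (∀ n ∈ T, 1 ≤ n ∧ (n : ℝ) ≤ Z ∧ ((∏ p ∈ n.primeFactors, p : ℕ) : ℝ) ≤ Y) →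
  (T.card : ℝ) ≤ K * Z ^ η * Y ^ (1 + η)

/-- SMR. `q ↦ (q.1, D q.1 q.2)` is at most two to one, `1 ≤ |D| ≤ 2X`, the radical of `|D|` is at most
`6 R ≤ 6 X^(1/4)`; there are at most `2 (X/4)^(1/3) + 1 ≤ 3 X^(1/3)` values of `q.1` and by RAD
(`Z = 2X`, `Y = 6X^(1/4)`, `η` small in terms of `ε`) at most `2 K Z^η Y^(1+η)` values of `D`. -/
def S_SMR : Prop := ∀ ε : ℝ, 0 < ε → ∃ K : ℝ, ∀ X : ℝ, 4 ≤ X → ∀ S : Finset (ℤ × ℤ),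
  (∀ q ∈ S, D q.1 q.2 ≠ 0 ∧ 4 * |(q.1 : ℝ)| ^ 3 ≤ X ∧ 27 * (q.2 : ℝ) ^ 2 ≤ X ∧
    (R q.1 q.2 : ℝ) ≤ X ^ (1 / 4 : ℝ)) → (S.card : ℝ) ≤ K * X ^ (7 / 12 + ε)

/-- FML. Finiteness: bounded integers. Lower bound: take `1 ≤ a' ≤ A = ⌊(X/4)^(1/3)⌋` not divisible by any
`d⁴`, `d ≥ 2` (at least `A - ∑_{d ≥ 2} A/d⁴ ≥ A/2` of them, `∑_{d≥2} 1/d⁴ ≤ 1/2`) and any `|b'| ≤ (X/27)^(1/2)`;
`D a' b' > 0`, and `p⁴ ∤ a'`. `⌊t⌋ ≥ t/2` for `t ≥ 1`, `2⌊s⌋+1 ≥ s` for `s ≥ 0`. -/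
def S_FML : Prop := (∀ X : ℝ, (Fam X).Finite) ∧
  ∃ c : ℝ, 0 < c ∧ ∀ X : ℝ, 4 ≤ X → c * X ^ (5 / 6 : ℝ) ≤ ((Fam X).ncard : ℝ)

/-- EXA. From FIX, PCD, PRM with `L = log R(a,b)`, `z = ⌊C (L + log X/4)^α⌋₊`, `P` the filter of PCD,
`n = |P|`: for every `a'` with `4|a'|³ ≤ X`, `a' ≠ 0` (so `log |a'| ≤ log X`), the `b'` with `(a',b') ∈ S`
satisfy the hypothesis of FIX with `B = ⌊(X/27)^(1/2)⌋₊`: if `p ∈ P` and `p ∤ D a' b'` and the numbers of points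
differ, then `p ≤ z ≤ C (log R(a,b) + log R(a',b'))^α` gives `Sep`. So at most
`C₀ (2B+1+Q²) / X^((1-1/α)/4-ε) ≤ 3 C₀ X^(1/2-(1-1/α)/4+ε)` of them; sum over at most `3 X^(1/3)` values `a'`. -/
def S_EXA : Prop := ∀ α C ε : ℝ, 1 < α → 0 < C → 0 < ε → ∃ δ X₀ K : ℝ, 0 < δ ∧ 4 ≤ X₀ ∧ ∀ X : ℝ, X₀ ≤ X →
  ∀ a b : ℤ, IsModel a b → Real.log (R a b) ≤ X ^ δ → ∀ S : Finset (ℤ × ℤ),
  (∀ q ∈ S, q ∈ Fam X ∧ q.1 ≠ 0 ∧ X ^ (1 / 4 : ℝ) ≤ (R q.1 q.2 : ℝ) ∧ ¬ Sep C α a b q.1 q.2) →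
  (S.card : ℝ) ≤ K * X ^ (5 / 6 - (1 - 1 / α) / 4 + ε)

/-- FIN, the theorem. From FML, EXA, SMR; the curves with `a' = 0` are at most `2 (X/27)^(1/2) + 1`; for
`4 ≤ X ≤ X₀` use `Fam X ⊆ Fam X₀` and that the exponent of `X` is positive. -/
def S_FIN : Prop := (∀ X : ℝ, (Fam X).Finite) ∧
  (∃ c : ℝ, 0 < c ∧ ∀ X : ℝ, 4 ≤ X → c * X ^ (5 / 6 : ℝ) ≤ ((Fam X).ncard : ℝ)) ∧
  ∀ α C ε : ℝ, 1 < α → 0 < C → 0 < ε → ∃ δ K : ℝ, 0 < δ ∧ ∀ X : ℝ, 4 ≤ X → ∀ a b : ℤ, IsModel a b →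
    Real.log (R a b) ≤ X ^ δ →
    (({q | q ∈ Fam X ∧ ¬ Sep C α a b q.1 q.2} : Set (ℤ × ℤ)).ncard : ℝ) ≤
      K * X ^ (5 / 6 - (1 - 1 / α) / 4 + ε)

end ESP
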